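import Pool.Agent.K3h56.E2.Stm

/-!
# Brick MULT of helper56's project E2 (helper15)

A place of `H` with trivial decomposition group over `F` is complex only if the place below it is
complex.
-/

set_option autoImplicit false

open NumberField IsDedekindDomain Filter Topology

noncomputable section

namespace Pool.Agent.K3h15.E2

open Pool.Agent.K3h30.RS Pool.Agent.K3h56.E2

theorem t_MULT : S_MULT := by
  intro F H G K _ _ _ _ _ _ _ _ _ _ _ _ _ _ w hw
  have : IsGalois F H := IsGaloisGroup.isGalois G F H
  by_cases hr : InfinitePlace.IsReal w
  · have hu : InfinitePlace.IsReal (w.comap (algebraMap K H)) := hr.comap _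
    rw [InfinitePlace.mult, InfinitePlace.mult, if_pos hr, if_pos hu]
  · by_cases hu : InfinitePlace.IsReal (w.comap (algebraMap K H))
    · exfalso
      apply hr
      have hv : InfinitePlace.IsReal (w.comap (algebraMap F H)) := by
        have h1 := hu.comap (algebraMap F K)
        have e : (w.comap (algebraMap K H)).comap (algebraMap F K) = w.comap (algebraMap F H) := by
          rw [← InfinitePlace.comap_comp, ← IsScalarTower.algebraMap_eq F K H]
        rwa [e] at h1
      set φ := w.embedding with hφ
      have hm : InfinitePlace.mk φ = w := InfinitePlace.mk_embedding w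
      have hc : ComplexEmbedding.IsReal (φ.comp (algebraMap F H)) := by
        rw [← InfinitePlace.isReal_mk_iff]
        rw [← InfinitePlace.comap_mk, hm]
        exact hv
      have hcomp : φ.comp (algebraMap F H)
          = (ComplexEmbedding.conjugate φ).comp (algebraMap F H) := by
        have h2 := ComplexEmbedding.isReal_iff.mp hc
        ext x
        have h3 := congrArg (fun f : F →+* ℂ => f x) h2
        simpa [ComplexEmbedding.conjugate_coe_eq] using h3.symm
      obtain ⟨σ, hσ⟩ := NumberField.ComplexEmbedding.exists_comp_symm_eq_of_comp_eq φ
        (ComplexEmbedding.conjugate φ) hcomp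
      obtain ⟨γ, hγ⟩ := (IsGaloisGroup.mulEquivAlgEquiv G F H).surjective σ.symm
      have hact : ∀ x : H, γ • x = σ.symm x := by
        intro x
        rw [← hγ]
        rfl
      have hfix : Fixes (Sum.inl w : Place H) γ := by
        intro x
        show w (γ • x) ^ w.mult = w x ^ w.mult
        have h4 : w (γ • x) = w x := by
          rw [← InfinitePlace.norm_embedding_eq w, ← InfinitePlace.norm_embedding_eq w x, hact]
          have h5 := congrArg (fun f : H →+* ℂ => f x) hσ
          have h6 : φ (σ.symm x) = ComplexEmbedding.conjugate φ x := h5
          rw [← hφ, h6, ComplexEmbedding.conjugate_coe_eq]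
          exact Complex.norm_conj _
        rw [h4]
      have hone := hw γ hfix
      rw [← hm, InfinitePlace.isReal_mk_iff, ComplexEmbedding.isReal_iff, ← hσ]
      ext x
      show φ (σ.symm x) = φ x
      rw [← hact, hone, one_smul]
    · rw [InfinitePlace.mult, InfinitePlace.mult, if_neg hr, if_neg hu]

end Pool.Agent.K3h15.E2
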